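import Pool.Agent.Helper20.Mono.GoalsH
import Pool.Agent.Helper22.Mono.A1

/-! # Packet V2 (488): the normalised volume of a compact face is the sum over its simplices -/

namespace Mono

open Finset Filter Topology Pointwise

variable {n : ℕ}

namespace V2

/-- `x` lies in the open simplex `k τ`. -/
def InS (τ : Finset (Fin n → ℤ)) (k : ℕ) (x : Fin n → ℤ) : Prop :=
  ∃ c : (Fin n → ℤ) → ℝ, (∀ u ∈ τ, 0 < c u) ∧ toR x = ∑ u ∈ τ, c u • toR u ∧ ∑ u ∈ τ, c u = k

theorem dot_toR (a v : Fin n → ℤ) : toR a ⬝ᵥ toR v = ((a ⬝ᵥ v : ℤ) : ℝ) := by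
  simp [dotProduct, toR]

theorem NA_spec {A : Finset (Fin n → ℤ)} (hA : A.Nonempty) (a : Fin n → ℤ) :
    (∃ v ∈ A, a ⬝ᵥ v = NA A a) ∧ ∀ v ∈ A, NA A a ≤ a ⬝ᵥ v := by
  classical
  have hfin : {z | ∃ v ∈ A, z = a ⬝ᵥ v} = ((A.image (fun v => a ⬝ᵥ v) : Finset ℤ) : Set ℤ) := by
    ext z
    simp only [Set.mem_ofPred_eq, coe_image, Set.mem_image, mem_coe]
    constructor
    · rintro ⟨v, hv, rfl⟩; exact ⟨v, hv, rfl⟩
    · rintro ⟨v, hv, rfl⟩; exact ⟨v, hv, rfl⟩
  have hbdd : BddBelow {z | ∃ v ∈ A, z = a ⬝ᵥ v} := by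
    rw [hfin]; exact Finset.bddBelow _
  have hne : {z | ∃ v ∈ A, z = a ⬝ᵥ v}.Nonempty := by
    obtain ⟨v, hv⟩ := hA
    exact ⟨_, v, hv, rfl⟩
  constructor
  · obtain ⟨v, hv, h⟩ := Int.csInf_mem hne hbdd
    exact ⟨v, hv, h.symm⟩
  · intro v hv
    exact csInf_le hbdd ⟨v, hv, rfl⟩

theorem dot_pos {a v : Fin n → ℤ} (ha : ∀ i, 0 < a i) (hv : ∀ i, 0 ≤ v i) (h0 : v ≠ 0) :
    0 < a ⬝ᵥ v := by
  unfold dotProduct
  have hex : ∃ i, v i ≠ 0 := by
    by_contra hcon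
    push Not at hcon
    exact h0 (funext hcon)
  obtain ⟨i, hi⟩ := hex
  refine Finset.sum_pos' (fun j _ => mul_nonneg (ha j).le (hv j)) ⟨i, mem_univ i, ?_⟩
  exact mul_pos (ha i) (lt_of_le_of_ne (hv i) (Ne.symm hi))

theorem psi_ge {A Z : Finset (Fin n → ℤ)} {Φ : Fan n} (hT : Tri A Z Φ)
    {F : Finset (Fin n → ℤ)} (hF : F ∈ Φ.mx) {v : Fin n → ℤ} (hv : v ∈ A) :
    1 ≤ psi Z F (toR v) := by
  obtain ⟨hA, hA0, h0, hd, hvert, hN, -⟩ := hT
  refine (hN.2.2 F hF).1 v ?_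
  rw [hvert, Finset.mem_sdiff, mem_union]
  exact ⟨Or.inl hv, fun hz => (Finset.disjoint_left.1 hd hv hz)⟩

/-- The properties of the points of the convex hull. -/
theorem conv_props {A Z : Finset (Fin n → ℤ)} {Φ : Fan n} (hT : Tri A Z Φ)
    {a : Fin n → ℤ} {y : Fin n → ℝ}
    (hy : y ∈ convexHull ℝ (toR '' ((face A a : Finset (Fin n → ℤ)) : Set (Fin n → ℤ)))) :
    (∀ i, 0 ≤ y i) ∧ toR a ⬝ᵥ y = (NA A a : ℝ) ∧ ∀ F ∈ Φ.mx, 1 ≤ psi Z F y := by
  have hA0 := hT.2.1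
  have hsub : (toR '' ((face A a : Finset (Fin n → ℤ)) : Set (Fin n → ℤ))) ⊆
      {y : Fin n → ℝ | (∀ i, 0 ≤ y i) ∧ toR a ⬝ᵥ y = (NA A a : ℝ) ∧
        ∀ F ∈ Φ.mx, 1 ≤ psi Z F y} := by
    rintro _ ⟨v, hv, rfl⟩
    have hv' : v ∈ A ∧ a ⬝ᵥ v = NA A a := by simpa [face] using hv
    refine ⟨fun i => ?_, ?_, fun F hF => psi_ge hT hF hv'.1⟩
    · simpa using hA0 v hv'.1 i
    · rw [dot_toR, hv'.2]
  have hconv : Convex ℝ {y : Fin n → ℝ | (∀ i, 0 ≤ y i) ∧ toR a ⬝ᵥ y = (NA A a : ℝ) ∧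
        ∀ F ∈ Φ.mx, 1 ≤ psi Z F y} := by
    intro y hy z hz s t hs ht hst
    refine ⟨fun i => ?_, ?_, fun F hF => ?_⟩
    · have h1 := hy.1 i
      have h2 := hz.1 i
      simp only [Pi.add_apply, Pi.smul_apply, smul_eq_mul]
      positivity
    · rw [dotProduct_add, dotProduct_smul, dotProduct_smul, hy.2.1, hz.2.1, smul_eq_mul,
        smul_eq_mul, ← add_mul, hst, one_mul]
    · have h1 := hy.2.2 F hF
      have h2 := hz.2.2 F hF
      rw [psi_add Z (Φ.mx_indep F hF) (Φ.mx_card F hF), psi_smul Z (Φ.mx_indep F hF)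
        (Φ.mx_card F hF), psi_smul Z (Φ.mx_indep F hF) (Φ.mx_card F hF)]
      nlinarith
  exact convexHull_min hsub hconv hy

/-- Existence of the simplex. -/
theorem exists_simplex {A Z : Finset (Fin n → ℤ)} {Φ : Fan n} (hT : Tri A Z Φ)
    {a : Fin n → ℤ} (ha : ∀ i, 0 < a i) {k : ℕ} (hk : 1 ≤ k) {x : Fin n → ℤ}
    (hx : toR x ∈ (k : ℝ) • convexHull ℝ (toR '' ((face A a : Finset (Fin n → ℤ)) :
      Set (Fin n → ℤ)))) :
    ∃ τ ∈ Φ.faces, τ.Nonempty ∧ τ ⊆ face A a ∧ InS τ k x := by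
  classical
  obtain ⟨y, hy, hxy⟩ := Set.mem_smul_set.1 hx
  obtain ⟨hy0, hya, hypsi⟩ := conv_props hT hy
  have hkR : (1 : ℝ) ≤ k := by exact_mod_cast hk
  have hx0 : ∀ i, 0 ≤ toR x i := by
    intro i
    rw [← hxy]
    simp only [Pi.smul_apply, smul_eq_mul]
    exact mul_nonneg (by linarith) (hy0 i)
  obtain ⟨F, hF, hc⟩ := Φ.cover (toR x) hx0
  have hind := Φ.mx_indep F hF
  have hcard := Φ.mx_card F hF
  have hpsi : (k : ℝ) ≤ psi Z F (toR x) := by
    rw [← hxy, psi_smul Z hind hcard]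
    have := hypsi F hF
    nlinarith
  have hax : toR a ⬝ᵥ toR x = k * (NA A a : ℝ) := by
    rw [← hxy, dotProduct_smul, hya, smul_eq_mul]
  obtain ⟨hA, hA0, h0, hd, hvert, hN, -⟩ := hT
  obtain ⟨⟨v0, hv0, hv0e⟩, hmin⟩ := NA_spec hA a
  have hM : 0 < NA A a := by
    rw [← hv0e]
    exact dot_pos ha (hA0 v0 hv0) (fun h => h0 (h ▸ hv0))
  have hMR : (0 : ℝ) < (NA A a : ℝ) := by exact_mod_cast hM
  have hFv : ∀ u ∈ F, u ∈ A ∨ u ∈ Z := by
    intro u hu
    have := Φ.mx_sub F hF hu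
    rw [hvert, mem_union] at this
    exact this
  have hsum := dot_eq_sum_crd hind hcard (toR a) (toR x)
  rw [hax] at hsum
  -- split the sum
  have hsplit : ∑ u ∈ F, crd F (toR x) u * (toR a ⬝ᵥ toR u) =
      ∑ u ∈ F \ Z, crd F (toR x) u * (toR a ⬝ᵥ toR u) +
      ∑ u ∈ F ∩ Z, crd F (toR x) u * (toR a ⬝ᵥ toR u) := by
    rw [← Finset.sum_sdiff (Finset.inter_subset_left : F ∩ Z ⊆ F)]
    congr 1
    refine Finset.sum_congr ?_ (fun _ _ => rfl)
    ext u; simp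
  have hZpos : ∀ u ∈ F ∩ Z, (0 : ℝ) < toR a ⬝ᵥ toR u := by
    intro u hu
    rw [mem_inter] at hu
    obtain ⟨i, rfl⟩ := hN.2.1 u hu.2
    rw [dot_toR]
    have : a ⬝ᵥ (Pi.single i 1 : Fin n → ℤ) = a i := by simp
    rw [this]
    exact_mod_cast ha i
  have hdec : ∑ u ∈ F \ Z, crd F (toR x) u * (toR a ⬝ᵥ toR u - NA A a) +
      ∑ u ∈ F ∩ Z, crd F (toR x) u * (toR a ⬝ᵥ toR u) +
      (NA A a : ℝ) * (psi Z F (toR x) - k) = 0 := by
    have h1 : ∑ u ∈ F \ Z, crd F (toR x) u * (toR a ⬝ᵥ toR u - NA A a) =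
        ∑ u ∈ F \ Z, crd F (toR x) u * (toR a ⬝ᵥ toR u) - (NA A a : ℝ) * psi Z F (toR x) := by
      unfold psi
      rw [Finset.mul_sum, ← Finset.sum_sub_distrib]
      exact Finset.sum_congr rfl fun u _ => by ring
    rw [h1]
    rw [hsplit] at hsum
    linarith
  have hn1 : ∀ u ∈ F \ Z, 0 ≤ crd F (toR x) u * (toR a ⬝ᵥ toR u - NA A a) := by
    intro u hu
    rw [Finset.mem_sdiff] at hu
    refine mul_nonneg (hc u) ?_
    have hu' : u ∈ A := (hFv u hu.1).resolve_right hu.2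
    have := hmin u hu'
    rw [dot_toR]
    have h2 : (NA A a : ℝ) ≤ ((a ⬝ᵥ u : ℤ) : ℝ) := by exact_mod_cast this
    linarith
  have hn2 : ∀ u ∈ F ∩ Z, 0 ≤ crd F (toR x) u * (toR a ⬝ᵥ toR u) :=
    fun u hu => mul_nonneg (hc u) (hZpos u hu).le
  have hn3 : 0 ≤ (NA A a : ℝ) * (psi Z F (toR x) - k) := mul_nonneg hMR.le (by linarith)
  have hs1 := Finset.sum_nonneg hn1
  have hs2 := Finset.sum_nonneg hn2
  have e1 : ∑ u ∈ F \ Z, crd F (toR x) u * (toR a ⬝ᵥ toR u - NA A a) = 0 := by linarith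
  have e2 : ∑ u ∈ F ∩ Z, crd F (toR x) u * (toR a ⬝ᵥ toR u) = 0 := by linarith
  have e3 : (NA A a : ℝ) * (psi Z F (toR x) - k) = 0 := by linarith
  have e4 : psi Z F (toR x) = k := by
    rcases mul_eq_zero.1 e3 with h | h
    · exact absurd h hMR.ne'
    · linarith
  have z2 : ∀ u ∈ F, u ∈ Z → crd F (toR x) u = 0 := by
    intro u hu hz
    have hm : u ∈ F ∩ Z := mem_inter.2 ⟨hu, hz⟩
    have := (Finset.sum_eq_zero_iff_of_nonneg hn2).1 e2 u hm
    rcases mul_eq_zero.1 this with h | h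
    · exact h
    · exact absurd h (hZpos u hm).ne'
  have z1 : ∀ u ∈ F, u ∉ Z → crd F (toR x) u ≠ 0 → u ∈ face A a := by
    intro u hu hz hne
    have hm : u ∈ F \ Z := Finset.mem_sdiff.2 ⟨hu, hz⟩
    have := (Finset.sum_eq_zero_iff_of_nonneg hn1).1 e1 u hm
    rcases mul_eq_zero.1 this with h | h
    · exact absurd h hne
    · rw [dot_toR] at h
      have h3 : a ⬝ᵥ u = NA A a := by
        have : ((a ⬝ᵥ u : ℤ) : ℝ) = ((NA A a : ℤ) : ℝ) := by linarith
        exact_mod_cast this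
      simp only [face, mem_filter]
      exact ⟨(hFv u hu).resolve_right hz, h3⟩
  set τ := F.filter (fun u => crd F (toR x) u ≠ 0) with hτ
  have hτs : ∑ u ∈ τ, crd F (toR x) u = k := by
    rw [← e4]
    unfold psi
    have hsubs : τ ⊆ F \ Z := by
      intro u hu
      rw [hτ, mem_filter] at hu
      exact Finset.mem_sdiff.2 ⟨hu.1, fun hz => hu.2 (z2 u hu.1 hz)⟩
    refine Finset.sum_subset hsubs ?_
    intro u hu hnu
    by_contra hne
    exact hnu (mem_filter.2 ⟨(Finset.mem_sdiff.1 hu).1, hne⟩)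
  refine ⟨τ, ?_, ?_, ?_, crd F (toR x), ?_, ?_, hτs⟩
  · rw [Fan.mem_faces]
    exact ⟨F, hF, Finset.filter_subset _ _⟩
  · by_contra hemp
    rw [Finset.not_nonempty_iff_eq_empty] at hemp
    rw [hemp, Finset.sum_empty] at hτs
    linarith
  · intro u hu
    rw [hτ, mem_filter] at hu
    by_cases hz : u ∈ Z
    · exact absurd (z2 u hu.1 hz) hu.2
    · exact z1 u hu.1 hz hu.2
  · intro u hu
    rw [hτ, mem_filter] at hu
    exact lt_of_le_of_ne (hc u) (Ne.symm hu.2)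
  · conv_lhs => rw [← sum_crd hind hcard (toR x)]
    symm
    refine Finset.sum_subset (Finset.filter_subset _ _) ?_
    intro u hu hnu
    have : crd F (toR x) u = 0 := by
      by_contra hne
      exact hnu (mem_filter.2 ⟨hu, hne⟩)
    rw [this, zero_smul]

/-- Converse. -/
theorem mem_of_InS {φ τ : Finset (Fin n → ℤ)} (hτ : τ ⊆ φ) {k : ℕ} (hk : 1 ≤ k)
    {x : Fin n → ℤ} (h : InS τ k x) :
    toR x ∈ (k : ℝ) • convexHull ℝ (toR '' (φ : Set (Fin n → ℤ))) := by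
  obtain ⟨c, hc, hx, hs⟩ := h
  have hkR : (0 : ℝ) < k := by exact_mod_cast hk
  rw [Set.mem_smul_set]
  refine ⟨∑ u ∈ τ, (c u / k) • toR u, ?_, ?_⟩
  · refine (convex_convexHull ℝ _).sum_mem (fun u hu => ?_) ?_ (fun u hu => ?_)
    · exact div_nonneg (hc u hu).le hkR.le
    · rw [← Finset.sum_div, hs, div_self hkR.ne']
    · exact subset_convexHull ℝ _ ⟨u, hτ hu, rfl⟩
  · rw [hx, Finset.smul_sum]
    refine Finset.sum_congr rfl fun u _ => ?_
    rw [smul_smul, mul_div_cancel₀ _ hkR.ne']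

/-- Uniqueness. -/
theorem InS_unique {Φ : Fan n} {τ τ' : Finset (Fin n → ℤ)} (h : Φ.IsFace τ) (h' : Φ.IsFace τ')
    {k k' : ℕ} {x : Fin n → ℤ} (hx : InS τ k x) (hx' : InS τ' k' x) : τ = τ' := by
  classical
  have key : ∀ {τ τ' : Finset (Fin n → ℤ)}, Φ.IsFace τ → Φ.IsFace τ' → ∀ {k k' : ℕ},
      InS τ k x → InS τ' k' x → τ ⊆ τ' := by
    intro τ τ' h h' k k' hx hx'
    obtain ⟨F, hF, hs⟩ := h
    obtain ⟨F', hF', hs'⟩ := h'
    obtain ⟨c, hc, hxc, -⟩ := hx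
    obtain ⟨c', hc', hxc', -⟩ := hx'
    have crdform : ∀ {F τ : Finset (Fin n → ℤ)}, F ∈ Φ.mx → τ ⊆ F → ∀ {c : (Fin n → ℤ) → ℝ},
        toR x = ∑ u ∈ τ, c u • toR u → crd F (toR x) = fun u => if u ∈ τ then c u else 0 := by
      intro F τ hF hs c hxc
      refine crd_unique (Φ.mx_indep F hF) ⟨fun u hu => ?_, ?_⟩
      · have : u ∉ τ := fun h => hu (hs h)
        simp [this]
      · rw [hxc]
        have : ∑ u ∈ τ, c u • toR u = ∑ u ∈ τ, (if u ∈ τ then c u else 0) • toR u :=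
          Finset.sum_congr rfl fun u hu => by simp [hu]
        rw [this]
        refine Finset.sum_subset hs ?_
        intro u _ hu
        simp [hu]
    have e := crdform hF hs hxc
    have e' := crdform hF' hs' hxc'
    have p : ∀ u, 0 ≤ crd F (toR x) u := by
      intro u
      rw [e]
      show 0 ≤ (if u ∈ τ then c u else 0)
      split_ifs with hu
      · exact (hc u hu).le
      · exact le_refl _
    have p' : ∀ u, 0 ≤ crd F' (toR x) u := by
      intro u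
      rw [e']
      show 0 ≤ (if u ∈ τ' then c' u else 0)
      split_ifs with hu
      · exact (hc' u hu).le
      · exact le_refl _
    have hτF' : τ ⊆ F' := by
      intro u hu
      by_contra hnu
      have := Φ.inter F hF F' hF' (toR x) p p' u hnu
      rw [e] at this
      simp only [hu, if_true] at this
      exact (hc u hu).ne' this
    have e2 := crdform hF' hτF' hxc
    intro u hu
    by_contra hnu
    have h1 : crd F' (toR x) u = c u := by rw [e2]; simp [hu]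
    have h2 : crd F' (toR x) u = 0 := by rw [e']; simp [hnu]
    rw [h1] at h2
    exact (hc u hu).ne' h2
  exact Finset.Subset.antisymm (key h h' hx hx') (key h' h hx' hx)

/-- Finiteness. -/
theorem finite_pts {A Z : Finset (Fin n → ℤ)} {Φ : Fan n} (hT : Tri A Z Φ)
    {a : Fin n → ℤ} (ha : ∀ i, 0 < a i) (k : ℕ) :
    {x : Fin n → ℤ | toR x ∈ (k : ℝ) • convexHull ℝ (toR '' ((face A a : Finset (Fin n → ℤ)) :
      Set (Fin n → ℤ)))}.Finite := by
  refine (Set.finite_Icc (0 : Fin n → ℤ) (fun _ => (k : ℤ) * NA A a)).subset ?_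
  intro x hx
  obtain ⟨y, hy, hxy⟩ := Set.mem_smul_set.1 hx
  obtain ⟨hy0, hya, -⟩ := conv_props hT hy
  have hx0 : ∀ i, 0 ≤ x i := by
    intro i
    have : 0 ≤ toR x i := by
      rw [← hxy]
      simp only [Pi.smul_apply, smul_eq_mul]
      exact mul_nonneg (Nat.cast_nonneg k) (hy0 i)
    rw [toR_apply] at this
    exact_mod_cast this
  have hax : toR a ⬝ᵥ toR x = k * (NA A a : ℝ) := by
    rw [← hxy, dotProduct_smul, hya, smul_eq_mul]
  rw [dot_toR] at hax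
  have hax' : a ⬝ᵥ x = k * NA A a := by exact_mod_cast hax
  rw [Set.mem_Icc]
  refine ⟨fun i => by simpa using hx0 i, fun i => ?_⟩
  show x i ≤ (k : ℤ) * NA A a
  rw [← hax']
  unfold dotProduct
  calc x i ≤ a i * x i := by nlinarith [ha i, hx0 i]
    _ ≤ ∑ j, a j * x j :=
      Finset.single_le_sum (f := fun j => a j * x j)
        (fun j _ => mul_nonneg (ha j).le (hx0 j)) (mem_univ i)

open Classical in
/-- The count. -/
theorem ehr_eq {A Z : Finset (Fin n → ℤ)} {Φ : Fan n} (hT : Tri A Z Φ)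
    {a : Fin n → ℤ} (ha : ∀ i, 0 < a i) {k : ℕ} (hk : 1 ≤ k) :
    ehr (face A a) k = ∑ τ ∈ Φ.faces.filter (fun τ => τ.Nonempty ∧ τ ⊆ face A a),
      Nat.card {x : Fin n → ℤ // InS τ k x} := by
  have hfin := finite_pts hT ha k
  set T := Φ.faces.filter (fun τ => τ.Nonempty ∧ τ ⊆ face A a) with hTdef
  have hfinτ : ∀ τ ∈ T, {x : Fin n → ℤ | InS τ k x}.Finite := by
    intro τ hτ
    refine hfin.subset ?_
    intro x hx
    rw [hTdef, mem_filter] at hτ
    exact mem_of_InS hτ.2.2 hk hx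
  have h1 : {x : Fin n → ℤ | toR x ∈ (k : ℝ) • convexHull ℝ (toR '' ((face A a :
      Finset (Fin n → ℤ)) : Set (Fin n → ℤ)))} = ⋃ τ ∈ T, {x : Fin n → ℤ | InS τ k x} := by
    ext x
    simp only [Set.mem_ofPred_eq, Set.mem_iUnion, exists_prop]
    constructor
    · intro hx
      obtain ⟨τ, h1, h2, h3, h4⟩ := exists_simplex hT ha hk hx
      exact ⟨τ, mem_filter.2 ⟨h1, h2, h3⟩, h4⟩
    · rintro ⟨τ, hτ, hx⟩
      rw [hTdef, mem_filter] at hτ
      exact mem_of_InS hτ.2.2 hk hx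
  have h2 : ehr (face A a) k = hfin.toFinset.card := by
    unfold ehr
    rw [← Set.ncard_eq_toFinset_card _ hfin]
    rfl
  have h3 : ∀ τ (hτ : τ ∈ T), Nat.card {x : Fin n → ℤ // InS τ k x} =
      (hfinτ τ hτ).toFinset.card := by
    intro τ hτ
    rw [← Set.ncard_eq_toFinset_card _ (hfinτ τ hτ)]
    rfl
  rw [h2]
  have h4 : hfin.toFinset = T.attach.biUnion (fun τ => (hfinτ τ.1 τ.2).toFinset) := by
    ext x
    simp only [Set.Finite.mem_toFinset, mem_biUnion, mem_attach, true_and, Subtype.exists]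
    rw [h1]
    simp
  rw [h4, Finset.card_biUnion]
  · rw [← Finset.sum_attach T (fun τ => Nat.card {x : Fin n → ℤ // InS τ k x})]
    exact Finset.sum_congr rfl fun τ _ => (h3 τ.1 τ.2).symm
  · intro τ _ τ' _ hne
    simp only [Function.onFun]
    rw [Finset.disjoint_left]
    intro x hx hx'
    rw [Set.Finite.mem_toFinset] at hx hx'
    apply hne
    apply Subtype.ext
    have f1 := (mem_filter.1 τ.2).1
    have f2 := (mem_filter.1 τ'.2).1
    rw [Fan.mem_faces] at f1 f2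
    exact InS_unique f1 f2 hx hx'

/-- Independent vectors of a face are affinely independent. -/
theorem card_le_dim {φ τ : Finset (Fin n → ℤ)} (hτ : τ ⊆ φ) (hi : Indep τ) (hne : τ.Nonempty) :
    τ.card ≤ dimF φ + 1 := by
  classical
  have haff : AffineIndependent ℝ (fun u : τ => toR (u : Fin n → ℤ)) :=
    LinearIndependent.affineIndependent (k := ℝ) hi
  have : Nonempty τ := hne.to_subtype
  have h1 := haff.card_le_finrank_succ
  rw [Fintype.card_coe] at h1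
  refine h1.trans ?_
  unfold dimF
  refine Nat.add_le_add_right ?_ 1
  refine Submodule.finrank_mono ?_
  refine vectorSpan_mono ℝ ?_
  rintro _ ⟨u, rfl⟩
  exact ⟨u, hτ u.2, rfl⟩

end V2

open V2 in
theorem nvolSum (h : SimplexCount) : NvolSum := by
  classical
  intro n A Z Φ hT φ hφ
  obtain ⟨hφA, a, ha, rfl⟩ : φ ⊆ A ∧ ∃ a : Fin n → ℤ, (∀ i, 0 < a i) ∧ φ = face A a := by
    simpa [cfaces] using hφ
  set d := dimF (face A a) with hd
  set T := Φ.faces.filter (fun τ => τ.Nonempty ∧ τ ⊆ face A a) with hTdef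
  -- the limit of each term
  have hterm : ∀ τ ∈ T, Tendsto (fun k : ℕ => (d.factorial : ℝ) *
      (Nat.card {x : Fin n → ℤ // InS τ k x} : ℝ) / (k : ℝ) ^ d) atTop
      (𝓝 (if τ.card = d + 1 then (vol τ : ℝ) else 0)) := by
    intro τ hτ
    rw [hTdef, mem_filter, Fan.mem_faces] at hτ
    obtain ⟨hface, hne, hsub⟩ := hτ
    have hind := Fan.IsFace.indep Φ hface
    have hle := card_le_dim hsub hind hne
    have hcnt := h n τ hne hind
    have hpos : 1 ≤ τ.card := Finset.card_pos.2 hne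
    split_ifs with hcd
    · have : τ.card - 1 = d := by omega
      rw [this] at hcnt
      exact hcnt
    · have hlt : τ.card - 1 < d := by omega
      obtain ⟨e, he⟩ : ∃ e, e = τ.card - 1 := ⟨_, rfl⟩
      rw [← he] at hcnt hlt
      have hz : Tendsto (fun k : ℕ => ((d.factorial : ℝ) / (e.factorial : ℝ)) *
          (((e.factorial : ℝ) * (Nat.card {x : Fin n → ℤ // InS τ k x} : ℝ) / (k : ℝ) ^ e) *
            (1 / (k : ℝ) ^ (d - e)))) atTop (𝓝 (((d.factorial : ℝ) / (e.factorial : ℝ)) *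
          ((vol τ : ℝ) * 0))) := by
        refine Tendsto.const_mul _ (Tendsto.mul hcnt ?_)
        have h1 : Tendsto (fun k : ℕ => (k : ℝ) ^ (d - e)) atTop atTop := by
          have : d - e ≠ 0 := by omega
          exact (tendsto_pow_atTop this).comp tendsto_natCast_atTop_atTop
        have h2 := h1.inv_tendsto_atTop
        refine h2.congr fun k => ?_
        simp [Pi.inv_apply]
      rw [mul_zero, mul_zero] at hz
      refine hz.congr' ?_
      filter_upwards [eventually_ge_atTop 1] with k hk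
      have hkR : (k : ℝ) ≠ 0 := by positivity
      have hef : (e.factorial : ℝ) ≠ 0 := by positivity
      have hpow : (k : ℝ) ^ d = (k : ℝ) ^ e * (k : ℝ) ^ (d - e) := by
        rw [← pow_add]
        congr 1
        omega
      rw [hpow]
      field_simp
  have hsum := tendsto_finsetSum T hterm
  have hlim : Tendsto (fun k : ℕ => (d.factorial : ℝ) * (ehr (face A a) k : ℝ) / (k : ℝ) ^ d)
      atTop (𝓝 (∑ τ ∈ T, if τ.card = d + 1 then (vol τ : ℝ) else 0)) := by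
    refine hsum.congr' ?_
    filter_upwards [eventually_ge_atTop 1] with k hk
    rw [ehr_eq hT ha hk]
    push_cast
    rw [Finset.mul_sum, Finset.sum_div]
  have hval : (∑ τ ∈ T, if τ.card = d + 1 then (vol τ : ℝ) else 0) =
      ((∑ τ ∈ Φ.faces.filter (fun τ => τ ⊆ face A a ∧ τ.card = dimF (face A a) + 1),
        (vol τ : ℤ) : ℤ) : ℝ) := by
    rw [← Finset.sum_filter]
    push_cast
    refine Finset.sum_congr ?_ (fun _ _ => rfl)
    ext τ
    simp only [hTdef, mem_filter]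
    constructor
    · rintro ⟨⟨h1, h2, h3⟩, h4⟩
      exact ⟨h1, h3, h4⟩
    · rintro ⟨h1, h3, h4⟩
      refine ⟨⟨h1, ?_, h3⟩, h4⟩
      exact Finset.card_pos.1 (by omega)
  rw [hval] at hlim
  have hex : ∃ V : ℤ, Tendsto (fun k : ℕ => ((dimF (face A a)).factorial : ℝ) *
      ehr (face A a) k / (k : ℝ) ^ dimF (face A a)) atTop (𝓝 (V : ℝ)) := ⟨_, hlim⟩
  have h1 : nvol (face A a) = hex.choose := by
    unfold nvol
    rw [dif_pos hex]
  rw [h1]
  have h2 := tendsto_nhds_unique hex.choose_spec hlim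
  exact_mod_cast h2

end Mono
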